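import Pool.Agent.Helper38.PAC.Main
import Pool.Agent.Helper65.PAC.SolvField

set_option autoImplicit false

namespace Pool.Agent.Results.MP_a7256b_nt.FormsUpToNine

open Module

/-- Over the maximal solvable extension of the rationals, an irreducible form of degree at most
nine either is invariant under a subspace of bounded codimension, or has Zariski dense zeros. -/
theorem result :
    ∀ K : IntermediateField ℚ (AlgebraicClosure ℚ),
      K = (⨆ (L : IntermediateField ℚ (AlgebraicClosure ℚ))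
              (_ : FiniteDimensional ℚ L ∧ IsGalois ℚ L ∧ IsSolvable (L ≃ₐ[ℚ] L)), L) →
      ∃ N : ℕ, ∀ (d n : ℕ) (F : MvPolynomial (Fin n) K), d ≤ 9 → F.IsHomogeneous d →
        Irreducible F →
        (∃ W : Submodule K (Fin n → K), n ≤ finrank K W + N ∧
          ∀ w ∈ W, ∀ y, MvPolynomial.eval (y + w) F = MvPolynomial.eval y F) ∨
        (∀ G : MvPolynomial (Fin n) K, ¬ F ∣ G →
          ∃ x, MvPolynomial.eval x F = 0 ∧ MvPolynomial.eval x G ≠ 0) := by
  intro K hK
  have : Algebra.IsAlgebraic ℚ (AlgebraicClosure ℚ) := AlgebraicClosure.isAlgebraic ℚ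
  have hK2 : K = Helper65.PAC.solField ℚ (AlgebraicClosure ℚ) := by
    rw [hK, Helper65.PAC.solField_eq]
    congr 1
  subst hK2
  have rad : Helper38.PAC.Rad (Helper65.PAC.solField ℚ (AlgebraicClosure ℚ)) := fun m hm a =>
    Helper65.PAC.rad_solField (F := ℚ) (E := AlgebraicClosure ℚ) m hm a
  have R2 := rad 2 (by norm_num)
  have R3 := rad 3 (by norm_num)
  have r1 : Helper65.PAC.Rt (Helper65.PAC.solField ℚ (AlgebraicClosure ℚ)) 1 := by
    intro c hc
    refine ⟨-c 0 / c 1, ?_⟩
    rw [Finset.sum_range_succ, Finset.sum_range_succ]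
    field_simp
    simp
  choose Nf hNf using Helper38.PAC.main rad r1 (Helper65.PAC.rt2 R2) (Helper65.PAC.rt3 R2 R3)
    (Helper65.PAC.rt4 R2 R3)
  refine ⟨(Finset.univ : Finset (Fin 10)).sup (fun i => Nf i.1 (by omega)),
    fun d n F hd hF hirr => ?_⟩
  rcases hNf d hd n F hF hirr with ⟨W, hW, hinv⟩ | h
  · refine Or.inl ⟨W, ?_, hinv⟩
    have h1 : Nf d hd ≤ (Finset.univ : Finset (Fin 10)).sup (fun i => Nf i.1 (by omega)) :=
      Finset.le_sup (f := fun i : Fin 10 => Nf i.1 (by omega))
        (Finset.mem_univ (⟨d, by omega⟩ : Fin 10))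
    omega
  · exact Or.inr h

end Pool.Agent.Results.MP_a7256b_nt.FormsUpToNine
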