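import Pool.Agent.Helper65.PAC.Dense
import Pool.Agent.Helper65.PAC.SolvField

set_option autoImplicit false

namespace Pool.Agent.Results.MP_a7256b_nt.QuinticForms

open Pool.Agent.Helper65.PAC Finset Module

theorem prod_mem_lin {K : Type*} [Field K] {n : ℕ} (s : Finset (Fin n)) (e : Fin n → ℕ) :
    (fun x : Fin n → K => ∏ i ∈ s, x i ^ e i) ∈ (lin K (Fin n → K)) ^ (∑ i ∈ s, e i) := by
  induction s using Finset.induction_on with
  | empty => simpa using const_mem (V := Fin n → K) (1 : K)
  | insert a s ha ih =>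
    rw [Finset.sum_insert ha]
    have h1 : (fun x : Fin n → K => x a ^ e a) ∈ (lin K (Fin n → K)) ^ (e a) := by
      have : ((fun x : Fin n → K => x a) : (Fin n → K) → K) ∈ lin K (Fin n → K) :=
        ⟨LinearMap.proj a, rfl⟩
      exact Submodule.pow_mem_pow _ this _
    have h2 := mul_mem' h1 ih
    have e2 : (fun x : Fin n → K => ∏ i ∈ insert a s, x i ^ e i)
        = (fun x : Fin n → K => x a ^ e a) * (fun x : Fin n → K => ∏ i ∈ s, x i ^ e i) := by
      funext x
      simp [Finset.prod_insert ha]
    rw [e2]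
    exact h2

theorem eval_mem_lin {K : Type*} [Field K] {n d : ℕ} {f : MvPolynomial (Fin n) K}
    (hf : f.IsHomogeneous d) :
    (fun x : Fin n → K => MvPolynomial.eval x f) ∈ (lin K (Fin n → K)) ^ d := by
  have e : (fun x : Fin n → K => MvPolynomial.eval x f)
      = ∑ m ∈ f.support, (f.coeff m) • (fun x : Fin n → K => ∏ i ∈ m.support, x i ^ m i) := by
    funext x
    rw [MvPolynomial.eval_eq]
    simp
  rw [e]
  refine Submodule.sum_mem _ fun m hm => Submodule.smul_mem _ _ ?_
  have hd : ∑ i ∈ m.support, m i = d := by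
    have := hf (MvPolynomial.mem_support_iff.mp hm)
    rw [Finsupp.weight_apply] at this
    simpa [Finsupp.sum] using this
  rw [← hd]
  exact prod_mem_lin _ _

theorem inv_smul {K : Type*} [Field K] [CharZero K] {n : ℕ} {F : MvPolynomial (Fin n) K}
    {w : Fin n → K} (hw : ∀ y, MvPolynomial.eval (y + w) F = MvPolynomial.eval y F) (c : K)
    (y : Fin n → K) : MvPolynomial.eval (y + c • w) F = MvPolynomial.eval y F := by
  have hnat : ∀ (m : ℕ) (y : Fin n → K),
      MvPolynomial.eval ((m : K) • w + y) F = MvPolynomial.eval y F := by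
    intro m
    induction m with
    | zero => intro y; simp
    | succ m ih =>
      intro y
      have e : ((m + 1 : ℕ) : K) • w + y = ((m : K) • w + y) + w := by
        push_cast
        rw [add_smul, one_smul]
        abel
      rw [e, hw, ih]
  have hz : (shift w F).map (MvPolynomial.eval y) - Polynomial.C (MvPolynomial.eval y F) = 0 := by
    apply Polynomial.eq_zero_of_infinite_isRoot
    apply Set.Infinite.mono (s := Set.range (fun m : ℕ => (m : K)))
    · rintro _ ⟨m, rfl⟩
      show Polynomial.eval _ _ = 0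
      rw [Polynomial.eval_sub, eval_shift, Polynomial.eval_C, hnat, sub_self]
    · exact Set.infinite_range_of_injective Nat.cast_injective
  have e := congrArg (Polynomial.eval c) hz
  rw [Polynomial.eval_sub, eval_shift, Polynomial.eval_C, Polynomial.eval_zero] at e
  rw [add_comm y, sub_eq_zero.mp e]

/-- The vertex space of a polynomial. -/
def vert {K : Type*} [Field K] [CharZero K] {n : ℕ} (F : MvPolynomial (Fin n) K) :
    Submodule K (Fin n → K) where
  carrier := {w | ∀ y, MvPolynomial.eval (y + w) F = MvPolynomial.eval y F}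
  add_mem' := by
    intro a b ha hb y
    rw [← add_assoc, hb, ha]
  zero_mem' := by
    intro y
    rw [add_zero]
  smul_mem' := by
    intro c w hw y
    exact inv_smul hw c y

theorem main {K : Type*} [Field K] [CharZero K] (R2 : ∀ a : K, ∃ x : K, x ^ 2 = a)
    (R3 : ∀ a : K, ∃ x : K, x ^ 3 = a) (R5 : ∀ a : K, ∃ x : K, x ^ 5 = a)
    {n : ℕ} {F : MvPolynomial (Fin n) K} (hF5 : F.IsHomogeneous 5) (hF : Irreducible F) :
    (∃ W : Submodule K (Fin n → K), n ≤ finrank K W + 6 ∧
      ∀ w ∈ W, ∀ y, MvPolynomial.eval (y + w) F = MvPolynomial.eval y F) ∨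
    (∀ G : MvPolynomial (Fin n) K, ¬ F ∣ G →
      ∃ x, MvPolynomial.eval x F = 0 ∧ MvPolynomial.eval x G ≠ 0) := by
  by_cases hn : n ≤ finrank K (vert F) + 6
  · exact Or.inl ⟨vert F, hn, fun w hw => hw⟩
  right
  intro G hG
  obtain ⟨U, hU⟩ := Submodule.exists_isCompl (vert F)
  have hdim : 7 ≤ finrank K U := by
    have := Submodule.finrank_add_eq_of_isCompl hU
    rw [Module.finrank_fin_fun] at this
    omega
  obtain ⟨x, hx0, hx⟩ := quintic_seven (V := U) (rt2 R2) (rt3 R2 R3) (rt4 R2 R3) R5 hdim
    (restrict U.subtype 5 (eval_mem_lin hF5))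
  have r1 : Rt K 1 := by
    intro c hc
    refine ⟨-c 0 / c 1, ?_⟩
    rw [sum_range_succ, sum_range_succ]
    field_simp
    simp
  refine dense_of_zero r1 (rt2 R2) (rt3 R2 R3) (rt4 R2 R3) hF (eval_mem_lin hF5) hG (x : Fin n → K)
    hx ?_
  intro hv
  apply hx0
  have hxv : (x : Fin n → K) ∈ vert F := by
    intro y
    rw [add_comm]
    exact hv y
  have := (Submodule.disjoint_def.mp hU.disjoint) x hxv x.2
  exact Subtype.ext this

/-- Over the maximal solvable extension of the rationals, the rational points of an irreducible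
quintic hypersurface that is not a cone over a hypersurface of dimension at most four are
dense. -/
theorem result :
    ∀ K : IntermediateField ℚ (AlgebraicClosure ℚ),
      K = (⨆ (L : IntermediateField ℚ (AlgebraicClosure ℚ))
              (_ : FiniteDimensional ℚ L ∧ IsGalois ℚ L ∧ IsSolvable (L ≃ₐ[ℚ] L)), L) →
      ∀ (n : ℕ) (F : MvPolynomial (Fin n) K), F.IsHomogeneous 5 → Irreducible F →
        (∃ W : Submodule K (Fin n → K), n ≤ finrank K W + 6 ∧
          ∀ w ∈ W, ∀ y, MvPolynomial.eval (y + w) F = MvPolynomial.eval y F) ∨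
        (∀ G : MvPolynomial (Fin n) K, ¬ F ∣ G →
          ∃ x, MvPolynomial.eval x F = 0 ∧ MvPolynomial.eval x G ≠ 0) := by
  intro K hK n F hF5 hF
  have : Algebra.IsAlgebraic ℚ (AlgebraicClosure ℚ) := AlgebraicClosure.isAlgebraic ℚ
  have hK2 : K = solField ℚ (AlgebraicClosure ℚ) := by
    rw [hK, solField_eq]
    congr 1
  subst hK2
  have rad := fun (m : ℕ) (hm : m ≠ 0) (a : solField ℚ (AlgebraicClosure ℚ)) =>
    rad_solField (F := ℚ) (E := AlgebraicClosure ℚ) m hm a
  exact main (rad 2 (by norm_num)) (rad 3 (by norm_num)) (rad 5 (by norm_num)) hF5 hF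

end Pool.Agent.Results.MP_a7256b_nt.QuinticForms
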