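import Pool.Agent.Helper62.UG.Final
import Pool.Agent.Helper65.PAC.SolvField

set_option autoImplicit false

namespace Pool.Agent.Results.MP_a7256b_nt.UnitGroups

open Polynomial

/-- Over the maximal solvable extension `K` of the rationals, for every squarefree polynomial `f` of
degree at most nine, the group of units of `K[x]/(f)` is generated by the constants and the units
`x - a`, `a` in `K`; four factors in the numerator and in the denominator are enough if `f` is
irreducible. -/
theorem result :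
    ∀ K : IntermediateField ℚ (AlgebraicClosure ℚ),
      K = (⨆ (L : IntermediateField ℚ (AlgebraicClosure ℚ))
              (_ : FiniteDimensional ℚ L ∧ IsGalois ℚ L ∧ IsSolvable (L ≃ₐ[ℚ] L)), L) →
      ∀ f g : Polynomial K, Squarefree f → f.natDegree ≤ 9 → IsCoprime g f →
        ∃ (c : K) (r s : Multiset K), c ≠ 0 ∧ (∀ a ∈ r, f.eval a ≠ 0) ∧ (∀ a ∈ s, f.eval a ≠ 0) ∧
          f ∣ g * (s.map (fun a => X - C a)).prod - C c * (r.map (fun a => X - C a)).prod ∧
          (Irreducible f → Multiset.card r ≤ 4 ∧ Multiset.card s ≤ 4) := by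
  intro K hK f g hsq hfd hg
  have : Algebra.IsAlgebraic ℚ (AlgebraicClosure ℚ) := AlgebraicClosure.isAlgebraic ℚ
  have hK2 : K = Helper65.PAC.solField ℚ (AlgebraicClosure ℚ) := by
    rw [hK, Helper65.PAC.solField_eq]
    congr 1
  subst hK2
  have rad : ∀ m : ℕ, m ≠ 0 → ∀ a : Helper65.PAC.solField ℚ (AlgebraicClosure ℚ),
      ∃ x : Helper65.PAC.solField ℚ (AlgebraicClosure ℚ), x ^ m = a := fun m hm a =>
    Helper65.PAC.rad_solField (F := ℚ) (E := AlgebraicClosure ℚ) m hm a
  have R2 := rad 2 (by norm_num)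
  have R3 := rad 3 (by norm_num)
  have r1 : Helper65.PAC.Rt (Helper65.PAC.solField ℚ (AlgebraicClosure ℚ)) 1 := by
    intro c hc
    refine ⟨-c 0 / c 1, ?_⟩
    rw [Finset.sum_range_succ, Finset.sum_range_succ]
    field_simp
    simp
  have hr : ∀ d : ℕ, 1 ≤ d → d ≤ 4 →
      Helper65.PAC.Rt (Helper65.PAC.solField ℚ (AlgebraicClosure ℚ)) d := by
    intro d h1 h4
    interval_cases d
    · exact r1
    · exact Helper65.PAC.rt2 R2
    · exact Helper65.PAC.rt3 R2 R3
    · exact Helper65.PAC.rt4 R2 R3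
  by_cases hirr : Irreducible f
  · obtain ⟨c, r, s, hc, h1, h2, h3, h4, h5⟩ := Helper62.UG.gen_irred hr hirr hfd hg
    exact ⟨c, r, s, hc, h1, h2, h3, fun _ => ⟨h4, h5⟩⟩
  · obtain ⟨c, r, s, hc, h1, h2, h3⟩ := Helper62.UG.gen_all hr (9 - f.natDegree) f hsq (by omega) g hg
    exact ⟨c, r, s, hc, h1, h2, h3, fun h => absurd h hirr⟩

end Pool.Agent.Results.MP_a7256b_nt.UnitGroups
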